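import Pool.Agent.NA.Stmts

set_option autoImplicit false

/-!
# Squad NAL, row SWA (helper91): the block of a product sweep
-/

open Finset

noncomputable section

namespace Pool.Agent.NA.H91

/-- SWA -/
theorem swa : SwaStmt := by
  intro X _ _ n r c ζ η s D e Em b f hS e₀ he₀ α
  obtain ⟨hn, hnc, hr0, hr1, hc0, hc1, hη0, hη1, hζ0, hζ, hmono, hD, hDs, he, hl1, hNor, hfD,
    hfe⟩ := hS
  set N : ℕ := 2 ^ (∑ q ∈ range n, s q) with hN
  set A : ℝ := ∑ l ∈ range N, |α l| with hA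
  have hA0 : 0 ≤ A := sum_nonneg fun l _ => abs_nonneg _
  set W : ℕ → X := fun q => ∑ l ∈ range N, α l • D q (ix s n q l) with hW
  set h : X := c • ∑ l ∈ range N, α l • e l with hh
  set y : X := e₀ + ∑ l ∈ range N, α l • lf s n c D e l with hy
  have hn0 : (0 : ℝ) < n := by exact_mod_cast hn
  have hlf : ∑ l ∈ range N, α l • lf s n c D e l = (n : ℝ)⁻¹ • ∑ q ∈ range n, W q + h := by
    rw [hW, Finset.sum_comm, hh, Finset.smul_sum, Finset.smul_sum, ← Finset.sum_add_distrib]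
    refine Finset.sum_congr rfl fun l _ => ?_
    rw [lf, smul_add, smul_smul, smul_smul, mul_comm (α l) c, Finset.smul_sum, Finset.smul_sum]
    congr 1
    · refine Finset.sum_congr rfl fun q _ => ?_
      rw [smul_smul, mul_comm]
    · rw [smul_smul]
  have hix : ∀ q l, ix s n q l < 2 ^ s q := fun q l => Nat.mod_lt _ (by positivity)
  have hWmem : ∀ q < n, W q ∈ Em (q + 1) := by
    intro q hq
    exact Submodule.sum_mem _ fun l _ => Submodule.smul_mem _ _ (hD q hq _ (hix q l)).2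
  have key : ∀ m ≤ n, (1 - ζ) * ‖e₀ + (n : ℝ)⁻¹ • ∑ q ∈ range m, W q‖ ≤ ‖y‖ + 2 * ζ * A := by
    intro m hm
    have hw : e₀ + (n : ℝ)⁻¹ • ∑ q ∈ range m, W q ∈ Em m := by
      refine Submodule.add_mem _ (hmono (Nat.zero_le m) he₀) (Submodule.smul_mem _ _ ?_)
      refine Submodule.sum_mem _ fun q hq => ?_
      rw [Finset.mem_range] at hq
      exact hmono hq (hWmem q (lt_of_lt_of_le hq hm))
    obtain ⟨j, hj⟩ := (hNor m hm).2 _ hw
    have hyj : f m j y = f m j (e₀ + (n : ℝ)⁻¹ • ∑ q ∈ range m, W q) +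
        (n : ℝ)⁻¹ * ∑ q ∈ Ico m n, f m j (W q) + c * ∑ l ∈ range N, α l * f m j (e l) := by
      have h1 : y = (e₀ + (n : ℝ)⁻¹ • ∑ q ∈ range m, W q) +
          (n : ℝ)⁻¹ • ∑ q ∈ Ico m n, W q + h := by
        rw [hy, hlf, ← Finset.sum_range_add_sum_Ico W hm, smul_add]
        abel
      rw [h1, map_add, map_add, hh, map_smul, map_smul, map_sum, map_sum, smul_eq_mul,
        smul_eq_mul]
      congr 2
      refine Finset.sum_congr rfl fun l _ => ?_
      rw [map_smul, smul_eq_mul]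
    have h2 : |(n : ℝ)⁻¹ * ∑ q ∈ Ico m n, f m j (W q)| ≤ ζ * A := by
      have h3 : ∀ q ∈ Ico m n, |f m j (W q)| ≤ ζ * A := by
        intro q hq
        rw [Finset.mem_Ico] at hq
        rw [hW]
        simp only
        rw [map_sum]
        refine (Finset.abs_sum_le_sum_abs _ _).trans ?_
        rw [hA, Finset.mul_sum]
        refine Finset.sum_le_sum fun l _ => ?_
        rw [map_smul, smul_eq_mul, abs_mul, mul_comm ζ]
        exact mul_le_mul_of_nonneg_left (hfD m hm j q hq.1 hq.2 _ (hix q l)) (abs_nonneg _)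
      have h4 : |∑ q ∈ Ico m n, f m j (W q)| ≤ n * (ζ * A) := by
        refine (Finset.abs_sum_le_sum_abs _ _).trans ((Finset.sum_le_sum h3).trans ?_)
        rw [Finset.sum_const, Nat.card_Ico, nsmul_eq_mul]
        refine mul_le_mul_of_nonneg_right ?_ (by positivity)
        exact_mod_cast Nat.sub_le n m
      rw [abs_mul, abs_of_pos (inv_pos.2 hn0)]
      calc (n : ℝ)⁻¹ * |∑ q ∈ Ico m n, f m j (W q)| ≤ (n : ℝ)⁻¹ * (n * (ζ * A)) :=
            mul_le_mul_of_nonneg_left h4 (by positivity)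
        _ = ζ * A := by field_simp
    have h5 : |c * ∑ l ∈ range N, α l * f m j (e l)| ≤ ζ * A := by
      have h6 : |∑ l ∈ range N, α l * f m j (e l)| ≤ ζ * A := by
        refine (Finset.abs_sum_le_sum_abs _ _).trans ?_
        rw [hA, Finset.mul_sum]
        refine Finset.sum_le_sum fun l _ => ?_
        rw [abs_mul, mul_comm ζ]
        exact mul_le_mul_of_nonneg_left (hfe m hm j l) (abs_nonneg _)
      rw [abs_mul, abs_of_pos hc0]
      calc c * |∑ l ∈ range N, α l * f m j (e l)| ≤ 1 * (ζ * A) :=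
            mul_le_mul hc1 h6 (abs_nonneg _) zero_le_one
        _ = ζ * A := one_mul _
    have h7 : f m j y ≤ ‖y‖ := by
      calc f m j y ≤ ‖f m j y‖ := Real.le_norm_self _
        _ ≤ ‖f m j‖ * ‖y‖ := (f m j).le_opNorm y
        _ ≤ 1 * ‖y‖ := mul_le_mul_of_nonneg_right ((hNor m hm).1 j) (norm_nonneg _)
        _ = ‖y‖ := one_mul _
    have h8 := (abs_le.1 h2).1
    have h9 := (abs_le.1 h5).1
    linarith
  have hζ1 : ζ ≤ η / 100 := by
    have h1 : c * r * η ≤ 1 * η := by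
      refine mul_le_mul_of_nonneg_right ?_ hη0.le
      calc c * r ≤ 1 * 1 := mul_le_mul hc1 hr1 hr0.le zero_le_one
        _ = 1 := one_mul _
    linarith
  have hcr : 0 ≤ c * r * A := by positivity
  have hζA : 2 * ζ * A ≤ η / 50 * (c * r * A) := by
    have h1 : ζ * A ≤ c * r * η / 100 * A := mul_le_mul_of_nonneg_right hζ hA0
    calc 2 * ζ * A = 2 * (ζ * A) := by ring
      _ ≤ 2 * (c * r * η / 100 * A) := by linarith
      _ = η / 50 * (c * r * A) := by ring
  have hy0 : 0 ≤ ‖y‖ := norm_nonneg _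
  have hfour : c * r * A ≤ 4 * ‖y‖ := by
    have h1 := key n le_rfl
    have h2 : c * r * A ≤ ‖h‖ := by
      rw [hh, norm_smul, Real.norm_eq_abs, abs_of_pos hc0, mul_assoc]
      exact mul_le_mul_of_nonneg_left (hl1 α) hc0.le
    have h3 : ‖h‖ ≤ ‖y‖ + ‖e₀ + (n : ℝ)⁻¹ • ∑ q ∈ range n, W q‖ := by
      have h4 : h = y - (e₀ + (n : ℝ)⁻¹ • ∑ q ∈ range n, W q) := by
        rw [hy, hlf]
        abel
      calc ‖h‖ = ‖y - (e₀ + (n : ℝ)⁻¹ • ∑ q ∈ range n, W q)‖ := by rw [← h4]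
        _ ≤ _ := norm_sub_le _ _
    set V : ℝ := ‖e₀ + (n : ℝ)⁻¹ • ∑ q ∈ range n, W q‖ with hV
    have hV0 : 0 ≤ V := norm_nonneg _
    have h5 : ζ * V ≤ 1 / 1000 * V := by
      refine mul_le_mul_of_nonneg_right ?_ hV0
      linarith
    have h6 : η / 50 * (c * r * A) ≤ 1 / 500 * (c * r * A) := by
      refine mul_le_mul_of_nonneg_right ?_ hcr
      linarith
    nlinarith
  refine ⟨?_, ?_⟩
  · intro m hm
    have h1 := key m hm
    set V : ℝ := ‖e₀ + (n : ℝ)⁻¹ • ∑ q ∈ range m, W q‖ with hV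
    have hV0 : 0 ≤ V := norm_nonneg _
    have h2 : η / 50 * (c * r * A) ≤ η / 50 * (4 * ‖y‖) :=
      mul_le_mul_of_nonneg_left hfour (by positivity)
    have h3 : (1 - η / 100) * V ≤ (1 + 4 * η / 50) * ‖y‖ := by
      have h4 : ζ * V ≤ η / 100 * V := mul_le_mul_of_nonneg_right hζ1 hV0
      nlinarith
    have h5 : (1 + 4 * η / 50) * ‖y‖ ≤ (1 - η / 100) * ((1 + η) * ‖y‖) := by
      rw [← mul_assoc]
      refine mul_le_mul_of_nonneg_right ?_ hy0
      nlinarith
    have h6 : 0 < 1 - η / 100 := by linarith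
    exact le_of_mul_le_mul_left (h3.trans h5) h6
  · have h1 : c * r / 4 * A = (c * r * A) / 4 := by ring
    rw [h1]
    linarith

end Pool.Agent.NA.H91
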